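import Pool.Agent.W559.Et.Stm

/-!
# ET-SEC: smoothness of the algebra of the second level (analogue of `JD.smooth_S2`)
-/

set_option autoImplicit false
set_option linter.unusedSectionVars false

open Cardinal MvPolynomial

universe u v w

namespace Pool.Agent.W417.Et

open Pool.Agent.W559.Mg Pool.Agent.W559.Et

theorem smooth_gen {k : Type u} {D : Type u} [Field k] [CommRing D] [Algebra k D]
    {γ : D →ₐ[k] D} {p : ℕ} {s T T' : D} (gs : γ s = s) (gT : γ T = T) (TT : T * T' = 1)
    (s0 : s ≠ 0) (hp : p.Prime) (hpk : (p : k) = 0) {R : Subalgebra k D} (hsR : s ∈ R)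
    (hγR : ∀ f ∈ R, γ f ∈ R)
    (hsm : Algebra.Smooth k (S2 (ge γ p s) p (C T) (C T')
      (Rp p s R ⊓ fx ((ge γ p s) ^ p)) (th p s 0)))
    {x x' t : D} (hx : x ∈ R) (hγx : γ x = x)
    (hxx : x * x' = 1) (ht : t ∈ lc R x hx) (hts : (γ ^ p) t = t + s) :
    Algebra.Smooth k (S2 γ p T T' (lc R x hx ⊓ fx (γ ^ p)) t) := by
  have h : JD (β := PEmpty.{u+1}) γ p s T T' 1 1 (fun _ => 0) (fun _ _ => 0) :=
    { gs := gs, gT := gT, gz := map_one γ, TT := TT, zz := one_mul 1, s0 := s0,
      y0 := fun b => b.elim, y1 := fun b => b.elim, y2 := fun b => b.elim,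
      mp := fun b => b.elim }
  have hpD := cast_p (D := D) (k := k) hpk
  have hpE := cast_p (D := MvPolynomial (Fin p) D) (k := k) hpk
  set W := lc R x hx ⊓ fx (γ ^ p) with hW
  set Rq := Rp p s R with hRq
  set Wp := Rq ⊓ fx ((ge γ p s) ^ p) with hWp
  set Sp := S2 (ge γ p s) p (C T) (C T') Wp (th p s 0) with hSp
  have hγx' : γ x' = x' := by
    have h1 : x * γ x' = 1 := by
      have h2 := congrArg γ hxx
      rwa [map_mul, hγx, map_one] at h2
    calc γ x' = (x * x') * γ x' := by rw [hxx, one_mul]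
      _ = (x * γ x') * x' := by ring
      _ = x' := by rw [h1, one_mul]
  have htp : (dl γ)^[p] t = s := by
    rw [dl_iter_p γ hp hpD, ← pow_app, hts]
    ring
  have hge : ∀ n (a : D), (ge γ p s)^[n] (C a) = C (γ^[n] a) := by
    intro n
    induction n with
    | zero => exact fun a => rfl
    | succ n ih => intro a; rw [Function.iterate_succ_apply', ih, ge_C,
        Function.iterate_succ_apply']
  have hdlge : ∀ n (a : D), (dl (ge γ p s))^[n] (C a) = C ((dl γ)^[n] a) := by
    intro n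
    induction n with
    | zero => exact fun a => rfl
    | succ n ih => intro a; rw [Function.iterate_succ_apply', ih, dl_ge_C,
        Function.iterate_succ_apply']
  -- the coefficients
  have hCR : ∀ f ∈ R, C f ∈ Rq := fun f hf => Algebra.subset_adjoin (Or.inl ⟨f, hf, rfl⟩)
  have hfxC : ∀ f : D, γ f = f → C f ∈ fx ((ge γ p s) ^ p) := by
    intro f hf
    rw [mem_fx, pow_app, Function.iterate_fixed]
    rw [ge_C, hf]
  have hX : C x ∈ Sp := S2_W _ p _ _ Wp _ ⟨hCR x hx, hfxC x hγx⟩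
  have hXX : (C x : MvPolynomial (Fin p) D) * C x' = 1 := by rw [← map_mul, hxx, map_one]
  have hSpx : Algebra.Smooth k (lc Sp (C x) hX) :=
    smooth_lc hsm hX (IsUnit.of_mul_eq_one (C x') hXX)
  -- general elements of the big localisation
  have hbig : ∀ f : MvPolynomial (Fin p) D, (∃ n : ℕ, C x ^ n * f ∈ Rq) →
      f ∈ fx ((ge γ p s) ^ p) → ∀ i : ℕ,
        (dl (ge γ p s))^[i] f * C T ^ (i * p) ∈ lc Sp (C x) hX := by
    rintro f ⟨n, hn⟩ hf i
    refine ⟨n, ?_⟩
    have h1 : (C x ^ n : MvPolynomial (Fin p) D) ∈ fx (ge γ p s) := by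
      rw [mem_fx, map_pow, ge_C, hγx]
    rw [← mul_assoc, ← dl_iter_fx_mul _ h1]
    refine S2_w _ p _ _ Wp _ ⟨hn, ?_⟩ i
    exact Subalgebra.mul_mem _ (Subalgebra.pow_mem _ (hfxC x hγx) n) hf
  -- the inclusion
  have hincl : ∀ f ∈ S2 γ p T T' W t, cc k p f ∈ lc Sp (C x) hX := by
    have h1 : S2 γ p T T' W t ≤ (lc Sp (C x) hX).comap (cc k p) := by
      refine S2_le γ p T T' _ _ ?_ ?_ ?_
      · exact le_lc Sp (C x) hX (S2_T' _ p _ _ _ _)
      · rintro w ⟨⟨n, hn⟩, hw⟩ i
        change C ((dl γ)^[i] w * T ^ (i * p)) ∈ lc Sp (C x) hX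
        rw [map_mul, map_pow, ← hdlge]
        refine hbig _ ⟨n, ?_⟩ ?_ i
        · rw [← map_pow, ← map_mul]
          exact hCR _ hn
        · rw [mem_fx, pow_app, hge, ← pow_app, mem_fx.1 hw]
      · intro i hi
        change C ((dl γ)^[i + 1] t * T ^ (i * p + 1)) ∈ lc Sp (C x) hX
        have h2 : (dl (ge γ p s))^[i + 1] (C t - th p s 0) * C T ^ ((i + 1) * p) ∈
            lc Sp (C x) hX := by
          refine hbig _ ?_ ?_ (i + 1)
          · obtain ⟨n, hn⟩ := ht
            refine ⟨n, ?_⟩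
            rw [mul_sub, ← map_pow, ← map_mul]
            refine Subalgebra.sub_mem _ (hCR _ hn) (Subalgebra.mul_mem _ ?_ ?_)
            · rw [map_pow]
              exact Subalgebra.pow_mem _ (hCR _ hx) n
            · exact Algebra.subset_adjoin (Or.inr ⟨0, rfl⟩)
          · rw [mem_fx, map_sub, h.toJT.st hp hpk, pow_app, hge, ← pow_app, hts, map_add]
            ring
        have h3 : (dl (ge γ p s))^[i + 1] (th p s 0) * C T ^ (i * p + 1) ∈ lc Sp (C x) hX :=
          le_lc Sp (C x) hX (S2_t _ p _ _ _ _ hi)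
        have h4 : C ((dl γ)^[i + 1] t * T ^ (i * p + 1)) =
            (dl (ge γ p s))^[i + 1] (th p s 0) * C T ^ (i * p + 1) +
            ((dl (ge γ p s))^[i + 1] (C t - th p s 0) * C T ^ ((i + 1) * p)) *
              C T' ^ ((i + 1) * p - (i * p + 1)) := by
          have h5 : i * p + 1 ≤ (i + 1) * p := by
            have := hp.pos
            rw [add_mul, one_mul]
            omega
          have h6 := T_pow_sub (C T) (C T') h.toJT.TT h5
          rw [map_mul, map_pow, h6, dl_iter_sub, hdlge]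
          ring
        rw [h4]
        exact Subalgebra.add_mem _ h3 (Subalgebra.mul_mem _ h2
          (Subalgebra.pow_mem _ (le_lc Sp (C x) hX (S2_T' _ p _ _ _ _)) _))
    exact fun f hf => h1 hf
  -- the retraction
  let ev := evt γ p t
  have hevθ : ∀ i, ev (th p s i) = (dl γ)^[i] t := fun i => evt_th γ p s h.gs t htp i
  have hev : ∀ f, ev (ge γ p s f) = γ (ev f) := evt_ge γ p s h.gs t htp
  have hevit : ∀ n f, ev ((ge γ p s)^[n] f) = γ^[n] (ev f) := by
    intro n
    induction n with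
    | zero => exact fun a => rfl
    | succ n ih => intro a; rw [Function.iterate_succ_apply', hev, ih,
        Function.iterate_succ_apply']
  have hevdl : ∀ n f, ev ((dl (ge γ p s))^[n] f) = (dl γ)^[n] (ev f) := by
    intro n
    induction n with
    | zero => exact fun a => rfl
    | succ n ih =>
      intro a
      rw [Function.iterate_succ_apply', Function.iterate_succ_apply', ← ih]
      unfold dl
      rw [map_sub, hev]
  have hγlc : ∀ f ∈ lc R x hx, γ f ∈ lc R x hx := by
    rintro f ⟨n, hn⟩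
    refine ⟨n, ?_⟩
    have h1 := hγR _ hn
    rwa [map_mul, map_pow, hγx] at h1
  have hevRp : ∀ f ∈ Rq, ev f ∈ lc R x hx := by
    have h1 : Rq ≤ (lc R x hx).comap ev := by
      rw [hRq]
      unfold Rp
      rw [Algebra.adjoin_le_iff]
      have hle := le_lc R x hx
      rintro f (⟨a, ha, rfl⟩ | ⟨i, rfl⟩)
      · change ev (C a) ∈ lc R x hx
        rw [evt_C]
        exact hle ha
      · change ev (th p s i) ∈ lc R x hx
        rw [hevθ]
        exact dl_iter_mem γ hγlc i ht
    exact fun f hf => h1 hf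
  have hxW : x' ∈ W := by
    refine ⟨inv_mem_lc _ _ _ _ hxx, ?_⟩
    rw [SetLike.mem_coe, mem_fx, pow_app, Function.iterate_fixed hγx']
  have hret : ∀ f ∈ lc Sp (C x) hX, ev f ∈ S2 γ p T T' W t := by
    have h1 : Sp ≤ (S2 γ p T T' W t).comap ev := by
      refine S2_le _ p _ _ _ _ ?_ ?_ ?_
      · change ev (C T') ∈ S2 γ p T T' W t
        rw [evt_C]
        exact S2_T' γ p T T' W t
      · rintro w ⟨hw1, hw2⟩ i
        change ev ((dl (ge γ p s))^[i] w * C T ^ (i * p)) ∈ S2 γ p T T' W t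
        rw [map_mul, map_pow, evt_C, hevdl]
        refine S2_w γ p T T' W t ⟨hevRp w hw1, ?_⟩ i
        rw [SetLike.mem_coe, mem_fx] at hw2 ⊢
        rw [pow_app, ← hevit, ← pow_app, hw2]
      · intro i hi
        change ev ((dl (ge γ p s))^[i + 1] (th p s 0) * C T ^ (i * p + 1)) ∈ S2 γ p T T' W t
        rw [map_mul, map_pow, evt_C, hevdl, hevθ]
        exact S2_t γ p T T' W t hi
    rintro f ⟨n, hn⟩
    have h2 := h1 hn
    change ev (C x ^ n * f) ∈ S2 γ p T T' W t at h2
    rw [map_mul, map_pow, evt_C] at h2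
    have h3 : ev f = x' ^ n * (x ^ n * ev f) := by
      rw [← mul_assoc, ← mul_pow, mul_comm x', hxx, one_pow, one_mul]
    rw [h3]
    exact Subalgebra.mul_mem _ (Subalgebra.pow_mem _ (S2_W γ p T T' W t hxW) n) h2
  let i : S2 γ p T T' W t →ₐ[k] lc Sp (C x) hX :=
    ((cc k p).comp (S2 γ p T T' W t).val).codRestrict _ fun f => hincl f.1 f.2
  let r : lc Sp (C x) hX →ₐ[k] S2 γ p T T' W t :=
    (ev.comp (lc Sp (C x) hX).val).codRestrict _ fun f => hret f.1 f.2
  have hri : ∀ a, r (i a) = a := by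
    intro a
    apply Subtype.ext
    exact evt_C γ p t _
  have h1 : Algebra.FormallySmooth k (S2 γ p T T' W t) := H920R2.formallySmooth_retract i r hri
  have h2 : Algebra.FiniteType k (S2 γ p T T' W t) :=
    Algebra.FiniteType.of_surjective r fun a => ⟨i a, hri a⟩
  have h3 : Algebra.FinitePresentation k (S2 γ p T T' W t) :=
    Algebra.FinitePresentation.of_finiteType.1 h2
  exact ⟨h1, h3⟩


theorem sec : SecStm.{u} := by
  intro k K _ _ _ γ p hp hpk R hsR hγR hsm x x' t hx hγx hxx ht hts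
  have h1 : gm G3 γ (sS K) = sS K := by
    unfold sS
    rw [gm_mo, map_one]
  have h2 : gm G3 γ (mo (dg 0 1 0) 1) = (mo (dg 0 1 0) 1 : ML K G3) := by
    rw [gm_mo, map_one]
  have h3 : (mo (dg 0 1 0) 1 : ML K G3) * mo (dg 0 (-1) 0) 1 = 1 := by
    rw [mo_mul, dg_add, one_mul]
    exact mo_one
  have h4 : sS K ≠ 0 := by
    unfold sS
    exact mo_ne_zero one_ne_zero
  exact smooth_gen h1 h2 h3 h4 hp hpk hsR hγR hsm hx hγx hxx ht hts

end Pool.Agent.W417.Et
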